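import Mathlib

/-!
# Separable quotient groups of Banach spaces and small one-parameter subgroups

`E` is a real Banach space and `H` a subgroup of `(E, +)` with `E ⧸ H` separable. Then there is one
closed separable linear subspace `E₀` such that for every `η > 0` every point of `E` is `e + a` with
`e ∈ E₀` and the whole line `ℝ a` at distance at most `η` from `H`.
-/

open Topology Metric TopologicalSpace

namespace Pool.Agent.Lib.MP_a1a06b_an.Lines

section Basic

variable {E : Type*} [NormedAddCommGroup E] [NormedSpace ℝ E]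

/-- distance to the subgroup -/
noncomputable def dH (H : AddSubgroup E) (x : E) : ℝ := infDist x (H : Set E)

lemma H_ne (H : AddSubgroup E) : (H : Set E).Nonempty := ⟨0, H.zero_mem⟩

lemma dH_le {H : AddSubgroup E} {x h : E} (hh : h ∈ H) : dH H x ≤ ‖x - h‖ := by
  rw [← dist_eq_norm]
  exact infDist_le_dist_of_mem hh

lemma dH_lt {H : AddSubgroup E} {x : E} {r : ℝ} (h : dH H x < r) : ∃ h ∈ H, ‖x - h‖ < r := by
  obtain ⟨y, hy, hd⟩ := (infDist_lt_iff (H_ne H)).mp h
  exact ⟨y, hy, by rwa [dist_eq_norm] at hd⟩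

lemma dH_nonneg (H : AddSubgroup E) (x : E) : 0 ≤ dH H x := infDist_nonneg

lemma dH_add_le (H : AddSubgroup E) (x y : E) : dH H (x + y) ≤ dH H x + dH H y := by
  refine le_of_forall_pos_lt_add fun ε hε => ?_
  obtain ⟨h, hh, h1⟩ := dH_lt (show dH H x < dH H x + ε / 2 by linarith)
  obtain ⟨k, hk, h2⟩ := dH_lt (show dH H y < dH H y + ε / 2 by linarith)
  have h3 : dH H (x + y) ≤ ‖x + y - (h + k)‖ := dH_le (H.add_mem hh hk)
  have h4 : ‖x + y - (h + k)‖ ≤ ‖x - h‖ + ‖y - k‖ := by
    have : x + y - (h + k) = (x - h) + (y - k) := by abel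
    rw [this]; exact norm_add_le _ _
  linarith

lemma dH_neg (H : AddSubgroup E) (x : E) : dH H (-x) = dH H x := by
  have key : ∀ x, dH H (-x) ≤ dH H x := by
    intro x
    refine le_of_forall_pos_lt_add fun ε hε => ?_
    obtain ⟨h, hh, h1⟩ := dH_lt (show dH H x < dH H x + ε by linarith)
    have h3 : dH H (-x) ≤ ‖-x - -h‖ := dH_le (H.neg_mem hh)
    have h4 : ‖-x - -h‖ = ‖x - h‖ := by
      have : -x - -h = -(x - h) := by abel
      rw [this, norm_neg]
    linarith
  refine le_antisymm (key x) ?_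
  have := key (-x)
  rwa [neg_neg] at this

lemma dH_mem {H : AddSubgroup E} {h : E} (hh : h ∈ H) : dH H h = 0 := by
  refine le_antisymm ?_ (dH_nonneg H h)
  have := dH_le (x := h) hh
  simpa using this

lemma dH_le_norm (H : AddSubgroup E) (x : E) : dH H x ≤ ‖x‖ := by
  have := dH_le (x := x) H.zero_mem
  simpa using this

lemma continuous_dH (H : AddSubgroup E) : Continuous (dH H) := continuous_infDist_pt _

/-- approximation by a sequence modulo `H` -/
lemma exists_seq (H : AddSubgroup E) [SeparableSpace (E ⧸ H)] :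
    ∃ g : ℕ → E, ∀ x : E, ∀ ε : ℝ, 0 < ε → ∃ n, dH H (x - g n) < ε := by
  refine ⟨fun n => Quotient.out (denseSeq (E ⧸ H) n), fun x ε hε => ?_⟩
  have ho : IsOpen ((QuotientAddGroup.mk : E → E ⧸ H) '' ball x ε) :=
    QuotientAddGroup.isOpenMap_coe _ isOpen_ball
  have hne : ((QuotientAddGroup.mk : E → E ⧸ H) '' ball x ε).Nonempty :=
    ⟨_, x, mem_ball_self hε, rfl⟩
  obtain ⟨n, hn⟩ := (denseRange_denseSeq (E ⧸ H)).exists_mem_open ho hne
  obtain ⟨y, hy, hyn⟩ := hn
  refine ⟨n, ?_⟩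
  have h1 : (QuotientAddGroup.mk (Quotient.out (denseSeq (E ⧸ H) n)) : E ⧸ H)
      = denseSeq (E ⧸ H) n := Quotient.out_eq _
  set z := Quotient.out (denseSeq (E ⧸ H) n) with hz
  have h2 : (QuotientAddGroup.mk z : E ⧸ H) = QuotientAddGroup.mk y := by rw [h1, hyn]
  have h3 : -z + y ∈ H := QuotientAddGroup.eq.mp h2
  have h4 : dH H (x - z) ≤ ‖x - z - (-z + y)‖ := dH_le h3
  have h5 : x - z - (-z + y) = x - y := by abel
  rw [h5] at h4
  have h6 : ‖x - y‖ < ε := by
    rw [mem_ball, dist_comm, dist_eq_norm] at hy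
    exact hy
  exact lt_of_le_of_lt h4 h6

/-- scaling: a vector whose multiples up to `R` are near `H` is near a vector all whose multiples
are near `H` -/
lemma exists_line (H : AddSubgroup E) {δ R : ℝ} (hδ : 0 < δ) (hR : 0 < R) (w : E)
    (hw : ∀ t : ℝ, |t| ≤ R → dH H (t • w) ≤ δ) :
    ∃ u : E, ‖w - u‖ ≤ 2 * δ / R ∧ ∀ t : ℝ, dH H (t • u) ≤ 3 * δ := by
  have h0 : dH H (R • w) < 2 * δ := by
    have := hw R (by rw [abs_of_pos hR])
    linarith
  obtain ⟨h, hh, hlt⟩ := dH_lt h0
  have hRu : R • (R⁻¹ • h) = h := by rw [smul_smul, mul_inv_cancel₀ hR.ne', one_smul]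
  refine ⟨R⁻¹ • h, ?_, fun t => ?_⟩
  · have h1 : R • (w - R⁻¹ • h) = R • w - h := by rw [smul_sub, hRu]
    have h2 : R * ‖w - R⁻¹ • h‖ = ‖R • w - h‖ := by
      rw [← h1, norm_smul, Real.norm_eq_abs, abs_of_pos hR]
    rw [le_div_iff₀ hR, mul_comm, h2]
    exact hlt.le
  · set m : ℤ := ⌊t / R⌋ with hm
    set s : ℝ := Int.fract (t / R) with hs
    have hs0 : 0 ≤ s := Int.fract_nonneg _
    have hs1 : s < 1 := Int.fract_lt_one _
    have hts : t / R = (m : ℝ) + s := by rw [hm, hs]; exact (Int.floor_add_fract _).symm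
    have h1 : t • (R⁻¹ • h) = m • h + s • h := by
      rw [smul_smul, ← div_eq_mul_inv, hts, add_smul]
      congr 1
      exact Int.cast_smul_eq_zsmul ℝ m h
    rw [h1]
    have h2 : dH H (m • h + s • h) ≤ dH H (m • h) + dH H (s • h) := dH_add_le _ _ _
    have h3 : dH H (m • h) = 0 := dH_mem (H.zsmul_mem hh m)
    have h4 : s • h = s • (h - R • w) + (s * R) • w := by
      rw [smul_sub, smul_smul]; abel
    have h5 : dH H (s • h) ≤ dH H (s • (h - R • w)) + dH H ((s * R) • w) := by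
      rw [h4]; exact dH_add_le _ _ _
    have h6 : dH H ((s * R) • w) ≤ δ := by
      apply hw
      rw [abs_of_nonneg (mul_nonneg hs0 hR.le)]
      nlinarith
    have h7 : dH H (s • (h - R • w)) ≤ 2 * δ := by
      refine (dH_le_norm _ _).trans ?_
      rw [norm_smul, Real.norm_eq_abs, abs_of_nonneg hs0, norm_sub_rev]
      have : 0 ≤ ‖R • w - h‖ := norm_nonneg _
      nlinarith
    linarith

/-- covering of a ball by countably many translates of the set of small lines -/
lemma exists_countable (H : AddSubgroup E) [SeparableSpace (E ⧸ H)] (M η ε : ℝ) (hM : 0 ≤ M)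
    (hη : 0 < η) (hε : 0 < ε) :
    ∃ C : Set E, C.Countable ∧ (∀ c ∈ C, ‖c‖ ≤ M) ∧ ∀ x : E, ‖x‖ ≤ M → ∃ c ∈ C, ∃ a : E,
      (∀ t : ℝ, dH H (t • a) ≤ η) ∧ ‖x - c - a‖ ≤ ε := by
  classical
  obtain ⟨g, hg⟩ := exists_seq H
  set δ : ℝ := η / 3 with hδdef
  have hδ : 0 < δ := by positivity
  set R : ℝ := 2 * δ / ε with hRdef
  have hR : 0 < R := by positivity
  set s : ℝ := δ / (4 * (M + 1)) with hsdef
  have hs : 0 < s := by positivity
  obtain ⟨T, -, hTf, hT⟩ := (isCompact_Icc (a := -R) (b := R)).finite_cover_balls hs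
  have : Finite T := hTf
  -- codes
  let P : (T → ℕ) → E → Prop := fun n x => ‖x‖ ≤ M ∧ ∀ t : T, dH H ((t : ℝ) • x - g (n t)) < δ / 4
  let r : (T → ℕ) → E := fun n => if h : ∃ x, P n x then h.choose else 0
  have hr : ∀ n, (∃ x, P n x) → P n (r n) := by
    intro n h
    have : r n = h.choose := dif_pos h
    rw [this]; exact h.choose_spec
  refine ⟨Set.range r, Set.countable_range r, ?_, ?_⟩
  · rintro _ ⟨n, rfl⟩
    by_cases h : ∃ x, P n x
    · exact (hr n h).1
    · have : r n = 0 := dif_neg h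
      rw [this, norm_zero]; exact hM
  · intro x hx
    choose n hn using fun t : T => hg ((t : ℝ) • x) (δ / 4) (by positivity)
    have hP : P n x := ⟨hx, hn⟩
    have hPr := hr n ⟨x, hP⟩
    refine ⟨r n, ⟨n, rfl⟩, ?_⟩
    have hw : ∀ t : ℝ, |t| ≤ R → dH H (t • (x - r n)) ≤ δ := by
      intro t ht
      have htI : t ∈ Set.Icc (-R) R := abs_le.mp ht
      have := hT htI
      simp only [Set.mem_iUnion, mem_ball] at this
      obtain ⟨t', ht', hd⟩ := this
      have e1 : dH H (t' • (x - r n)) ≤ δ / 4 + δ / 4 := by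
        have : t' • (x - r n) = (t' • x - g (n ⟨t', ht'⟩)) + -(t' • r n - g (n ⟨t', ht'⟩)) := by
          rw [smul_sub]; abel
        rw [this]
        refine (dH_add_le _ _ _).trans ?_
        rw [dH_neg]
        exact add_le_add (hP.2 ⟨t', ht'⟩).le (hPr.2 ⟨t', ht'⟩).le
      have e2 : t • (x - r n) = t' • (x - r n) + (t - t') • (x - r n) := by
        rw [← add_smul]; congr 1; ring
      rw [e2]
      refine (dH_add_le _ _ _).trans ?_
      have e3 : dH H ((t - t') • (x - r n)) ≤ s * (2 * M) := by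
        refine (dH_le_norm _ _).trans ?_
        rw [norm_smul, Real.norm_eq_abs]
        have h1 : |t - t'| ≤ s := by
          rw [Real.dist_eq] at hd; exact hd.le
        have h2 : ‖x - r n‖ ≤ 2 * M := by
          refine (norm_sub_le _ _).trans ?_
          have := hPr.1
          linarith
        exact mul_le_mul h1 h2 (norm_nonneg _) hs.le
      have e4 : s * (2 * M) ≤ δ / 2 := by
        rw [hsdef, div_mul_eq_mul_div, div_le_iff₀ (by positivity)]
        nlinarith
      linarith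
    obtain ⟨u, hu1, hu2⟩ := exists_line H hδ hR (x - r n) hw
    refine ⟨u, fun t => ?_, ?_⟩
    · have := hu2 t
      rw [hδdef] at this
      linarith
    · refine hu1.trans (le_of_eq ?_)
      rw [hRdef]
      field_simp

end Basic

section Main

variable {E : Type*} [NormedAddCommGroup E] [NormedSpace ℝ E]

/-- the closed separable subspace, approximate form -/
lemma exists_subspace (H : AddSubgroup E) [SeparableSpace (E ⧸ H)] :
    ∃ E₀ : Submodule ℝ E, IsClosed (E₀ : Set E) ∧ IsSeparable (E₀ : Set E) ∧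
      ∀ M η ε : ℝ, 0 < M → 0 < η → 0 < ε → ∀ x : E, ‖x‖ ≤ M → ∃ e ∈ E₀, ‖e‖ ≤ 2 * M ∧ ∃ a : E,
        (∀ t : ℝ, dH H (t • a) ≤ η) ∧ ‖x - e - a‖ ≤ ε := by
  classical
  have h : ∀ p : ℚ × ℚ × ℚ, ∃ C : Set E, C.Countable ∧ (0 < p.1 → 0 < p.2.1 → 0 < p.2.2 →
      (∀ c ∈ C, ‖c‖ ≤ (p.1 : ℝ)) ∧ ∀ x : E, ‖x‖ ≤ (p.1 : ℝ) → ∃ c ∈ C, ∃ a : E,
      (∀ t : ℝ, dH H (t • a) ≤ (p.2.1 : ℝ)) ∧ ‖x - c - a‖ ≤ (p.2.2 : ℝ)) := by
    intro p
    by_cases hp : 0 < p.1 ∧ 0 < p.2.1 ∧ 0 < p.2.2
    · obtain ⟨C, h1, h2⟩ := exists_countable H (p.1 : ℝ) (p.2.1 : ℝ) (p.2.2 : ℝ)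
        (by exact_mod_cast hp.1.le) (by exact_mod_cast hp.2.1) (by exact_mod_cast hp.2.2)
      exact ⟨C, h1, fun _ _ _ => h2⟩
    · exact ⟨∅, Set.countable_empty, fun a b c => absurd ⟨a, b, c⟩ hp⟩
  choose C hC1 hC2 using h
  let D : Set E := ⋃ p, C p
  have hD : D.Countable := Set.countable_iUnion hC1
  refine ⟨(Submodule.span ℝ D).topologicalClosure, Submodule.isClosed_topologicalClosure _, ?_, ?_⟩
  · rw [Submodule.topologicalClosure_coe]
    exact (hD.isSeparable.span).closure
  · intro M η ε hM hη hε x hx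
    obtain ⟨q1, hq1, hq1'⟩ := exists_rat_btwn (show M < 2 * M by linarith)
    obtain ⟨q2, hq2, hq2'⟩ := exists_rat_btwn hη
    obtain ⟨q3, hq3, hq3'⟩ := exists_rat_btwn hε
    have p1 : 0 < q1 := by
      have : (0 : ℝ) < q1 := hM.trans hq1
      exact_mod_cast this
    have p2 : 0 < q2 := by exact_mod_cast hq2
    have p3 : 0 < q3 := by exact_mod_cast hq3
    obtain ⟨hc1, hc2⟩ := hC2 (q1, q2, q3) p1 p2 p3
    obtain ⟨c, hc, a, ha, hxa⟩ := hc2 x (hx.trans hq1.le)
    refine ⟨c, ?_, (hc1 c hc).trans hq1'.le, a, fun t => (ha t).trans hq2'.le, hxa.trans hq3'.le⟩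
    apply Submodule.le_topologicalClosure
    exact Submodule.subset_span (Set.mem_iUnion.mpr ⟨_, hc⟩)

lemma exact_decomposition [CompleteSpace E] (H : AddSubgroup E) (E₀ : Submodule ℝ E)
    (hcl : IsClosed (E₀ : Set E))
    (happ : ∀ M η ε : ℝ, 0 < M → 0 < η → 0 < ε → ∀ x : E, ‖x‖ ≤ M → ∃ e ∈ E₀, ‖e‖ ≤ 2 * M ∧
      ∃ a : E, (∀ t : ℝ, dH H (t • a) ≤ η) ∧ ‖x - e - a‖ ≤ ε)
    (η : ℝ) (hη : 0 < η) (x : E) :
    ∃ e ∈ E₀, ∃ a : E, x = e + a ∧ ∀ t : ℝ, dH H (t • a) ≤ η := by
  set B : ℕ → ℝ := fun k => (‖x‖ + 1) * (1 / 2) ^ k with hBdef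
  have hB : ∀ k, 0 < B k := fun k => by
    have : 0 ≤ ‖x‖ := norm_nonneg x
    positivity
  have step : ∀ (k : ℕ) (y : {y : E // ‖y‖ ≤ B k}), ∃ z : {z : E // ‖z‖ ≤ B (k + 1)},
      ∃ e ∈ E₀, ‖e‖ ≤ 2 * B k ∧ ∀ t : ℝ, dH H (t • (y.1 - e - z.1)) ≤ η / 2 * (1 / 2) ^ k := by
    intro k y
    obtain ⟨e, he, hen, a, ha, hxa⟩ := happ (B k) (η / 2 * (1 / 2) ^ k) (B (k + 1)) (hB k)
      (by positivity) (hB _) y.1 y.2
    refine ⟨⟨y.1 - e - a, hxa⟩, e, he, hen, fun t => ?_⟩
    have : y.1 - e - (y.1 - e - a) = a := by abel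
    rw [this]; exact ha t
  choose F e heE hen hea using step
  let y : ∀ k, {y : E // ‖y‖ ≤ B k} := fun k =>
    Nat.rec (motive := fun k => {y : E // ‖y‖ ≤ B k})
      ⟨x, by simp only [hBdef, pow_zero, mul_one]; linarith⟩ (fun k y => F k y) k
  have hy0 : (y 0).1 = x := rfl
  have hy1 : ∀ k, y (k + 1) = F k (y k) := fun k => rfl
  let S : ℕ → E := fun k => ∑ i ∈ Finset.range k, e i (y i)
  have hSE : ∀ k, S k ∈ E₀ := fun k => E₀.sum_mem fun i _ => heE i (y i)
  have hsum : Summable fun i => e i (y i) := by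
    refine Summable.of_norm_bounded (g := fun i => 2 * ((‖x‖ + 1) * (1 / 2 : ℝ) ^ i)) ?_
      (fun i => hen i (y i))
    exact ((summable_geometric_of_lt_one (by norm_num) (by norm_num)).mul_left _).mul_left _
  obtain ⟨e', he'⟩ := hsum
  have hlim : Filter.Tendsto S Filter.atTop (𝓝 e') := he'.tendsto_sum_nat
  have he'E : e' ∈ E₀ := hcl.mem_of_tendsto hlim (Filter.Eventually.of_forall hSE)
  have hylim : Filter.Tendsto (fun k => (y k).1) Filter.atTop (𝓝 0) := by
    apply squeeze_zero_norm (a := B) (fun k => (y k).2)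
    have : Filter.Tendsto (fun k : ℕ => (‖x‖ + 1) * (1 / 2 : ℝ) ^ k) Filter.atTop
        (𝓝 ((‖x‖ + 1) * 0)) :=
      (tendsto_pow_atTop_nhds_zero_of_lt_one (by norm_num) (by norm_num)).const_mul _
    rwa [mul_zero] at this
  have hpart : ∀ k, ∀ t : ℝ, dH H (t • (x - S k - (y k).1)) ≤ η * (1 - (1 / 2) ^ k) := by
    intro k
    induction k with
    | zero =>
      intro t
      have : x - S 0 - (y 0).1 = 0 := by
        simp only [S, Finset.range_zero, Finset.sum_empty, hy0]; abel
      rw [this, smul_zero, dH_mem H.zero_mem]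
      simp
    | succ k ih =>
      intro t
      have e1 : x - S (k + 1) - (y (k + 1)).1
          = (x - S k - (y k).1) + ((y k).1 - e k (y k) - (F k (y k)).1) := by
        simp only [S, Finset.sum_range_succ, hy1]; abel
      rw [e1, smul_add]
      refine (dH_add_le _ _ _).trans ?_
      have h1 := ih t
      have h2 := hea k (y k) t
      have h3 : η * (1 - (1 / 2) ^ (k + 1)) = η * (1 - (1 / 2) ^ k) + η / 2 * (1 / 2) ^ k := by
        rw [pow_succ]; ring
      linarith
  refine ⟨e', he'E, x - e', by abel, fun t => ?_⟩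
  have hl : Filter.Tendsto (fun k => dH H (t • (x - S k - (y k).1))) Filter.atTop
      (𝓝 (dH H (t • (x - e' - 0)))) := by
    apply ((continuous_dH H).tendsto _).comp
    exact ((tendsto_const_nhds.sub hlim).sub hylim).const_smul t
  rw [sub_zero] at hl
  refine le_of_tendsto hl (Filter.Eventually.of_forall fun k => (hpart k t).trans ?_)
  have : (0 : ℝ) ≤ (1 / 2) ^ k := by positivity
  nlinarith

/-- homomorphisms into groups without small one-parameter subgroups -/
lemma hom_part (H : AddSubgroup E) (E₀ : Submodule ℝ E)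
    (hsep : IsSeparable (E₀ : Set E))
    (hdec : ∀ η : ℝ, 0 < η → ∀ x : E, ∃ e ∈ E₀, ∃ a : E, x = e + a ∧ ∀ t : ℝ, dH H (t • a) ≤ η)
    (K : Type*) [Group K] [TopologicalSpace K] [T1Space K]
    (f : Multiplicative E →* K) (hf : Continuous f) (hfH : ∀ h ∈ H, f (Multiplicative.ofAdd h) = 1)
    (U : Set K) (hU : U ∈ 𝓝 (1 : K)) (hUsmall : ∀ g : Multiplicative ℝ →* K, Continuous g →
      (∀ t, g t ∈ U) → ∀ t, g t = 1) :
    ∃ V : Submodule ℝ E, IsClosed (V : Set E) ∧ (∀ v ∈ V, f (Multiplicative.ofAdd v) = 1) ∧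
      E₀ ⊔ V = ⊤ ∧ SeparableSpace (E ⧸ V) := by
  let f' : E → K := fun x => f (Multiplicative.ofAdd x)
  have hf' : Continuous f' := hf.comp continuous_ofAdd
  have hadd : ∀ x y, f' (x + y) = f' x * f' y := fun x y => by
    simp only [f', ofAdd_add, map_mul]
  have hzero : f' 0 = 1 := by simp only [f', ofAdd_zero, map_one]
  have hsub : ∀ x, ∀ h ∈ H, f' (x - h) = f' x := by
    intro x h hh
    rw [sub_eq_add_neg, hadd]
    have : f' (-h) = 1 := hfH _ (H.neg_mem hh)
    rw [this, mul_one]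
  let V : Submodule ℝ E :=
    { carrier := {v | ∀ t : ℝ, f' (t • v) = 1}
      add_mem' := by
        intro v w hv hw t
        rw [smul_add, hadd, hv t, hw t, mul_one]
      zero_mem' := by
        intro t
        rw [smul_zero, hzero]
      smul_mem' := by
        intro c v hv t
        rw [smul_smul]
        exact hv _ }
  have hVcl : IsClosed (V : Set E) := by
    have : (V : Set E) = ⋂ t : ℝ, (fun v : E => f' (t • v)) ⁻¹' {1} := by
      ext v
      simp only [Set.mem_iInter, Set.mem_preimage, Set.mem_singleton_iff]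
      exact Iff.rfl
    rw [this]
    exact isClosed_iInter fun t => isClosed_singleton.preimage (hf'.comp (continuous_const_smul t))
  have hnb : f' ⁻¹' U ∈ 𝓝 (0 : E) := by
    apply hf'.continuousAt
    rw [hzero]; exact hU
  obtain ⟨δ, hδ, hball⟩ := Metric.mem_nhds_iff.mp hnb
  have htop : E₀ ⊔ V = ⊤ := by
    rw [eq_top_iff]
    intro x _
    obtain ⟨e, he, a, hxa, ha⟩ := hdec (δ / 2) (by positivity) x
    rw [hxa]
    apply Submodule.add_mem_sup he
    -- the line through `a` is mapped into `U`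
    let g : Multiplicative ℝ →* K :=
      { toFun := fun t => f' ((Multiplicative.toAdd t) • a)
        map_one' := by
          rw [toAdd_one, zero_smul, hzero]
        map_mul' := by
          intro s t
          rw [toAdd_mul, add_smul, hadd] }
    have hg : Continuous g := by
      change Continuous fun t : Multiplicative ℝ => f' ((Multiplicative.toAdd t) • a)
      exact hf'.comp ((continuous_toAdd).smul continuous_const)
    have hgU : ∀ t, g t ∈ U := by
      intro t
      obtain ⟨h, hh, hlt⟩ := dH_lt (show dH H ((Multiplicative.toAdd t) • a) < δ by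
        have := ha (Multiplicative.toAdd t)
        linarith)
      have h1 : f' ((Multiplicative.toAdd t) • a - h) ∈ U := by
        apply hball
        rw [mem_ball, dist_zero_right]; exact hlt
      rw [hsub _ h hh] at h1
      exact h1
    intro t
    exact hUsmall g hg hgU (Multiplicative.ofAdd t)
  refine ⟨V, hVcl, fun v hv => ?_, htop, ?_⟩
  · have := hv 1
    rw [one_smul] at this
    exact this
  · have h1 : IsSeparable (V.mkQ '' (E₀ : Set E)) := hsep.image (by
      exact continuous_quot_mk)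
    have h2 : V.mkQ '' (E₀ : Set E) = Set.univ := by
      rw [Set.eq_univ_iff_forall]
      intro z
      obtain ⟨x, rfl⟩ := Submodule.mkQ_surjective V z
      have hx : x ∈ E₀ ⊔ V := by rw [htop]; trivial
      obtain ⟨e, he, v, hv, rfl⟩ := Submodule.mem_sup.mp hx
      refine ⟨e, he, ?_⟩
      rw [map_add]
      have : V.mkQ v = 0 := by
        rw [Submodule.mkQ_apply]; exact (Submodule.Quotient.mk_eq_zero V).mpr hv
      rw [this, add_zero]
    rw [h2] at h1
    exact isSeparable_univ_iff.mp h1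

end Main

/-- if `H` contains a closed linear subspace of finite codimension, then `E ⧸ H` is locally compact -/
lemma locallyCompact_of_finiteDimensional {E : Type*} [NormedAddCommGroup E] [NormedSpace ℝ E]
    (H : AddSubgroup E) (V : Submodule ℝ E)
    (hVcl : IsClosed (V : Set E)) (hVH : ∀ v ∈ V, v ∈ H) (hfin : FiniteDimensional ℝ (E ⧸ V)) :
    LocallyCompactSpace (E ⧸ H) := by
  have : ProperSpace (E ⧸ V) := FiniteDimensional.proper ℝ (E ⧸ V)
  let p : E ⧸ V → E ⧸ H := Quotient.map' id (by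
    intro x y hxy
    rw [QuotientAddGroup.leftRel_apply]
    have h1 : x - y ∈ V := (Submodule.quotientRel_def V).mp hxy
    have h2 : -x + y = -(x - y) := by abel
    change -x + y ∈ H
    rw [h2]
    exact H.neg_mem (hVH _ h1))
  have hp : ∀ x : E, p (Submodule.Quotient.mk x) = (QuotientAddGroup.mk x : E ⧸ H) := fun x => rfl
  have hpc : Continuous p := by
    have hq : IsQuotientMap (fun x : E => (Submodule.Quotient.mk x : E ⧸ V)) := isQuotientMap_quot_mk
    rw [hq.continuous_iff]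
    exact QuotientAddGroup.continuous_mk
  have hW : IsCompact (p '' closedBall 0 1) := (isCompact_closedBall 0 1).image hpc
  have hnb : p '' closedBall 0 1 ∈ 𝓝 (p 0) := by
    have ho : IsOpen (p '' ball 0 1) := by
      have hset : p '' ball 0 1 = (QuotientAddGroup.mk : E → E ⧸ H) ''
          ((fun x : E => (Submodule.Quotient.mk x : E ⧸ V)) ⁻¹' ball 0 1) := by
        ext z
        constructor
        · rintro ⟨w, hw, rfl⟩
          obtain ⟨x, rfl⟩ := Submodule.Quotient.mk_surjective V w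
          exact ⟨x, hw, (hp x).symm⟩
        · rintro ⟨x, hx, rfl⟩
          exact ⟨_, hx, hp x⟩
      rw [hset]
      apply QuotientAddGroup.isOpenMap_coe
      have hc : Continuous (fun x : E => (Submodule.Quotient.mk x : E ⧸ V)) := continuous_quot_mk
      exact isOpen_ball.preimage hc
    exact Filter.mem_of_superset (ho.mem_nhds ⟨0, mem_ball_self one_pos, rfl⟩)
      (Set.image_mono ball_subset_closedBall)
  exact IsCompact.locallyCompactSpace_of_mem_nhds_of_addGroup hW hnb

end Pool.Agent.Lib.MP_a1a06b_an.Lines
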